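import Pool.Agent.H69.Lac4

set_option autoImplicit false

namespace Pool.Agent.Results.MP_ed39a4_al.Thick

open Pool.Agent.H69.Lac

theorem result (f : ℕ → ℕ) :
    ∃ (G : Type) (_ : Group G), Group.FG G ∧
      ∀ S : Finset G, Subgroup.closure (S : Set G) = ⊤ →
        OneEnded (SimpleGraph.mulCayley (S : Set G)) ∧
        {n : ℕ | ∀ r ≤ f n, ¬ ((SimpleGraph.mulCayley (S : Set G)).induce
          (annInf (SimpleGraph.mulCayley (S : Set G)) 1 n r)).Connected}.Infinite := by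
  classical
  obtain ⟨G, _, A, T, h1, h2⟩ := final f
  refine ⟨G, inferInstance, ⟨⟨{A, T}, by simpa using h1⟩⟩, fun S hS => ?_⟩
  obtain ⟨h3, h4⟩ := h2 S S.finite_toSet hS
  exact ⟨h3, Nat.frequently_atTop_iff_infinite.1 h4⟩

end Pool.Agent.Results.MP_ed39a4_al.Thick
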